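import Pool.Agent.Q266.VG.Stm

/-!
# Project VG (helper266), job IDB: the formal identity B
-/

set_option autoImplicit false

namespace Pool.Agent.Q154.VG.B

open Pool.Agent.Q266.VG

theorem pair_cases {y1 y2 y1' y2' : ℕ} (h : ({y1, y2} : Multiset ℕ) = {y1', y2'}) :
    (y1 = y1' ∧ y2 = y2') ∨ (y1 = y2' ∧ y2 = y1') := by
  have h1 : y1 ∈ ({y1', y2'} : Multiset ℕ) := by
    rw [← h]
    simp
  rw [Multiset.insert_eq_cons, Multiset.mem_cons, Multiset.mem_singleton] at h1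
  rcases h1 with rfl | rfl
  · left
    rw [Multiset.insert_eq_cons, Multiset.insert_eq_cons, Multiset.cons_inj_right, Multiset.singleton_inj] at h
    exact ⟨rfl, h⟩
  · right
    rw [Multiset.pair_comm y1' y1, Multiset.insert_eq_cons, Multiset.insert_eq_cons, Multiset.cons_inj_right,
      Multiset.singleton_inj] at h
    exact ⟨rfl, h⟩

theorem contentB {a b c d a' b' c' d' : ℕ}
    (h : ({((2 : Fin 3), a), (0, b), (0, c), (1, d)} : Multiset (Fin 3 × ℕ)) =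
      {(2, a'), (0, b'), (0, c'), (1, d')}) :
    a = a' ∧ ({b, c} : Multiset ℕ) = {b', c'} ∧ d = d' := by
  have h1 := congrArg (Multiset.filterMap fun p : Fin 3 × ℕ => if p.1 = 1 then some p.2 else none) h
  have h0 := congrArg (Multiset.filterMap fun p : Fin 3 × ℕ => if p.1 = 0 then some p.2 else none) h
  have h2 := congrArg (Multiset.filterMap fun p : Fin 3 × ℕ => if p.1 = 2 then some p.2 else none) h
  refine ⟨?_, ?_, ?_⟩
  · simpa [Multiset.insert_eq_cons, ← Multiset.cons_zero] using h2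
  · simpa [Multiset.insert_eq_cons, ← Multiset.cons_zero] using h0
  · simpa [Multiset.insert_eq_cons, ← Multiset.cons_zero] using h1

theorem idb : S_IDB := by
  intro L _ q hq
  have h1 : ∀ a b c d, q b a c d = -q a b c d := fun a b c d => (hq a b c d).1
  have h2 : ∀ a b c d, q a b d c = -q a b c d := fun a b c d => (hq a b c d).2.1
  have h3 : ∀ a b c d, q c d a b = -q a b c d := fun a b c d => (hq a b c d).2.2
  constructor
  · intro a b c d a' b' c' d' h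
    obtain ⟨rfl, hbc, rfl⟩ := contentB h
    rcases pair_cases hbc with ⟨rfl, rfl⟩ | ⟨rfl, rfl⟩
    · rfl
    · unfold PhiB
      exact add_comm _ _
  · intro x1 x2 x3 x4
    have e1243 : q x1 x2 x4 x3 = -q x1 x2 x3 x4 := by
      rw [h2 x1 x2 x3 x4]
    have e2134 : q x2 x1 x3 x4 = -q x1 x2 x3 x4 := by
      rw [h1 x1 x2 x3 x4]
    have e2314 : q x2 x3 x1 x4 = -q x1 x4 x2 x3 := by
      rw [h3 x1 x4 x2 x3]
    have e2143 : q x2 x1 x4 x3 = q x1 x2 x3 x4 := by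
      rw [h1 x1 x2 x4 x3, h2 x1 x2 x3 x4, neg_neg]
    have e2413 : q x2 x4 x1 x3 = -q x1 x3 x2 x4 := by
      rw [h3 x1 x3 x2 x4]
    have e3142 : q x3 x1 x4 x2 = q x1 x3 x2 x4 := by
      rw [h1 x1 x3 x4 x2, h2 x1 x3 x2 x4, neg_neg]
    have e3412 : q x3 x4 x1 x2 = -q x1 x2 x3 x4 := by
      rw [h3 x1 x2 x3 x4]
    have e4132 : q x4 x1 x3 x2 = q x1 x4 x2 x3 := by
      rw [h1 x1 x4 x3 x2, h2 x1 x4 x2 x3, neg_neg]
    have e4312 : q x4 x3 x1 x2 = q x1 x2 x3 x4 := by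
      rw [h1 x3 x4 x1 x2, h3 x1 x2 x3 x4, neg_neg]
    have e3241 : q x3 x2 x4 x1 = -q x1 x4 x2 x3 := by
      rw [h1 x2 x3 x4 x1, h2 x2 x3 x1 x4, h3 x1 x4 x2 x3, neg_neg]
    have e3421 : q x3 x4 x2 x1 = q x1 x2 x3 x4 := by
      rw [h2 x3 x4 x1 x2, h3 x1 x2 x3 x4, neg_neg]
    have e4231 : q x4 x2 x3 x1 = -q x1 x3 x2 x4 := by
      rw [h1 x2 x4 x3 x1, h2 x2 x4 x1 x3, h3 x1 x3 x2 x4, neg_neg]
    have e4321 : q x4 x3 x2 x1 = -q x1 x2 x3 x4 := by
      rw [h1 x3 x4 x2 x1, h2 x3 x4 x1 x2, h3 x1 x2 x3 x4, neg_neg]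
    unfold PhiB
    simp only [e1243, e2134, e2314, e2143, e2413, e3142, e3412, e4132, e4312, e3241, e3421, e4231, e4321]
    module

end Pool.Agent.Q154.VG.B
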