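import Pool.Agent.Q266.VG.Stm

/-!
# Project VG (helper266), job IDC: the formal identity C
-/

set_option autoImplicit false

namespace Pool.Agent.Q154.VG

open Pool.Agent.Q266.VG

/-- the content determines the colours one and two letters and the three letters of colour zero -/
theorem contentC {y1 y2 z1 z2 z3 y1' y2' z1' z2' z3' : ℕ}
    (h : ({((1 : Fin 3), y1), (1, y2), (0, z1), (0, z2), (0, z3)} : Multiset (Fin 3 × ℕ)) =
      {(1, y1'), (1, y2'), (0, z1'), (0, z2'), (0, z3')}) :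
    ({y1, y2} : Multiset ℕ) = {y1', y2'} ∧ ({z1, z2, z3} : Multiset ℕ) = {z1', z2', z3'} := by
  have h1 := congrArg (Multiset.filterMap fun p : Fin 3 × ℕ => if p.1 = 1 then some p.2 else none) h
  have h0 := congrArg (Multiset.filterMap fun p : Fin 3 × ℕ => if p.1 = 0 then some p.2 else none) h
  constructor
  · simpa [Multiset.insert_eq_cons, ← Multiset.cons_zero] using h1
  · simpa [Multiset.insert_eq_cons, ← Multiset.cons_zero] using h0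

theorem pair_cases {y1 y2 y1' y2' : ℕ} (h : ({y1, y2} : Multiset ℕ) = {y1', y2'}) :
    (y1 = y1' ∧ y2 = y2') ∨ (y1 = y2' ∧ y2 = y1') := by
  have h1 : y1 ∈ ({y1', y2'} : Multiset ℕ) := by
    rw [← h]
    simp
  rw [Multiset.insert_eq_cons, Multiset.mem_cons, Multiset.mem_singleton] at h1
  rcases h1 with rfl | rfl
  · left
    rw [Multiset.insert_eq_cons, Multiset.insert_eq_cons, Multiset.cons_inj_right, Multiset.singleton_inj] at h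
    exact ⟨rfl, h⟩
  · right
    rw [Multiset.pair_comm y1' y1, Multiset.insert_eq_cons, Multiset.insert_eq_cons, Multiset.cons_inj_right,
      Multiset.singleton_inj] at h
    exact ⟨rfl, h⟩

theorem idc : S_IDC := by
  intro L _ t ht
  have hA : ∀ a b c d e, t b a c d e = -t a b c d e := fun a b c d e => (ht a b c d e).1
  have hS : ∀ a b c d e, t c d a b e = t a b c d e := fun a b c d e => (ht a b c d e).2.1
  have hJ : ∀ a b c d e, t a b c d e + t a b d e c + t a b e c d = 0 := fun a b c d e => (ht a b c d e).2.2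
  have hB : ∀ a b c d e, t a b d c e = -t a b c d e := fun a b c d e => by
    rw [hS d c a b e, hA c d a b e, hS a b c d e]
  constructor
  · intro y1 y2 z1 z2 z3 y1' y2' z1' z2' z3' h
    obtain ⟨hy, hz⟩ := contentC h
    have swy : ∀ y1 y2 z1 z2 z3, PhiC t y1 y2 z1 z2 z3 = PhiC t y2 y1 z1 z2 z3 := by
      intro y1 y2 z1 z2 z3
      unfold PhiC
      rw [hS z2 y2 z1 y1 z3, hS z3 y2 z1 y1 z2, hS z1 y2 z2 y1 z3, hS z3 y2 z2 y1 z1, hS z1 y2 z3 y1 z2,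
        hS z2 y2 z3 y1 z1]
      abel
    have sw12 : ∀ y1 y2 z1 z2 z3, PhiC t y1 y2 z1 z2 z3 = PhiC t y1 y2 z2 z1 z3 := by
      intro y1 y2 z1 z2 z3
      unfold PhiC
      abel
    have sw23 : ∀ y1 y2 z1 z2 z3, PhiC t y1 y2 z1 z2 z3 = PhiC t y1 y2 z1 z3 z2 := by
      intro y1 y2 z1 z2 z3
      unfold PhiC
      abel
    have hz2 : ∀ y1 y2, PhiC t y1 y2 z1 z2 z3 = PhiC t y1 y2 z1' z2' z3' := by
      intro y1 y2
      have h1 : z1 ∈ ({z1', z2', z3'} : Multiset ℕ) := by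
        rw [← hz]
        simp
      rw [Multiset.insert_eq_cons, Multiset.mem_cons, Multiset.insert_eq_cons, Multiset.mem_cons,
        Multiset.mem_singleton] at h1
      rcases h1 with rfl | rfl | rfl
      · rw [Multiset.insert_eq_cons, Multiset.insert_eq_cons z1, Multiset.cons_inj_right] at hz
        rcases pair_cases hz with ⟨rfl, rfl⟩ | ⟨rfl, rfl⟩
        · rfl
        · exact sw23 _ _ _ _ _
      · have h2 : ({z1', z1, z3'} : Multiset ℕ) = {z1, z1', z3'} := by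
          simp only [Multiset.insert_eq_cons]
          exact Multiset.cons_swap _ _ _
        rw [h2, Multiset.insert_eq_cons, Multiset.insert_eq_cons z1, Multiset.cons_inj_right] at hz
        rcases pair_cases hz with ⟨rfl, rfl⟩ | ⟨rfl, rfl⟩
        · exact sw12 _ _ _ _ _
        · rw [sw23, sw12]
      · have h2 : ({z1', z2', z1} : Multiset ℕ) = {z1, z1', z2'} := by
          simp only [Multiset.insert_eq_cons, ← Multiset.cons_zero]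
          rw [Multiset.cons_swap z2' z1, Multiset.cons_swap z1' z1]
        rw [h2, Multiset.insert_eq_cons, Multiset.insert_eq_cons z1, Multiset.cons_inj_right] at hz
        rcases pair_cases hz with ⟨rfl, rfl⟩ | ⟨rfl, rfl⟩
        · rw [sw12, sw23]
        · rw [sw12, sw23, sw12]
    rw [hz2]
    rcases pair_cases hy with ⟨rfl, rfl⟩ | ⟨rfl, rfl⟩
    · rfl
    · exact swy _ _ _ _ _
  · intro x1 x2 x3 x4 x5
    have e12543 : t x1 x2 x5 x4 x3 = -t x1 x2 x4 x5 x3 := by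
      rw [hB x1 x2 x4 x5 x3]
    have e32145 : t x3 x2 x1 x4 x5 = -t x1 x4 x2 x3 x5 := by
      rw [hA x2 x3 x1 x4 x5, hS x1 x4 x2 x3 x5]
    have e32541 : t x3 x2 x5 x4 x1 = t x2 x3 x4 x5 x1 := by
      rw [hA x2 x3 x5 x4 x1, hB x2 x3 x4 x5 x1, neg_neg]
    have e52143 : t x5 x2 x1 x4 x3 = -t x1 x4 x2 x5 x3 := by
      rw [hA x2 x5 x1 x4 x3, hS x1 x4 x2 x5 x3]
    have e52341 : t x5 x2 x3 x4 x1 = -t x2 x5 x3 x4 x1 := by
      rw [hA x2 x5 x3 x4 x1]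
    have e12435 : t x1 x2 x4 x3 x5 = -t x1 x2 x3 x4 x5 := by
      rw [hB x1 x2 x3 x4 x5]
    have e12534 : t x1 x2 x5 x3 x4 = -t x1 x2 x3 x5 x4 := by
      rw [hB x1 x2 x3 x5 x4]
    have e42135 : t x4 x2 x1 x3 x5 = -t x1 x3 x2 x4 x5 := by
      rw [hA x2 x4 x1 x3 x5, hS x1 x3 x2 x4 x5]
    have e42531 : t x4 x2 x5 x3 x1 = t x2 x4 x3 x5 x1 := by
      rw [hA x2 x4 x5 x3 x1, hB x2 x4 x3 x5 x1, neg_neg]
    have e52134 : t x5 x2 x1 x3 x4 = -t x1 x3 x2 x5 x4 := by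
      rw [hA x2 x5 x1 x3 x4, hS x1 x3 x2 x5 x4]
    have e52431 : t x5 x2 x4 x3 x1 = t x2 x5 x3 x4 x1 := by
      rw [hA x2 x5 x4 x3 x1, hB x2 x5 x3 x4 x1, neg_neg]
    have e21345 : t x2 x1 x3 x4 x5 = -t x1 x2 x3 x4 x5 := by
      rw [hA x1 x2 x3 x4 x5]
    have e21543 : t x2 x1 x5 x4 x3 = t x1 x2 x4 x5 x3 := by
      rw [hA x1 x2 x5 x4 x3, hB x1 x2 x4 x5 x3, neg_neg]
    have e31245 : t x3 x1 x2 x4 x5 = -t x1 x3 x2 x4 x5 := by
      rw [hA x1 x3 x2 x4 x5]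
    have e31542 : t x3 x1 x5 x4 x2 = t x1 x3 x4 x5 x2 := by
      rw [hA x1 x3 x5 x4 x2, hB x1 x3 x4 x5 x2, neg_neg]
    have e51243 : t x5 x1 x2 x4 x3 = -t x1 x5 x2 x4 x3 := by
      rw [hA x1 x5 x2 x4 x3]
    have e51342 : t x5 x1 x3 x4 x2 = -t x1 x5 x3 x4 x2 := by
      rw [hA x1 x5 x3 x4 x2]
    have e21435 : t x2 x1 x4 x3 x5 = t x1 x2 x3 x4 x5 := by
      rw [hA x1 x2 x4 x3 x5, hB x1 x2 x3 x4 x5, neg_neg]
    have e21534 : t x2 x1 x5 x3 x4 = t x1 x2 x3 x5 x4 := by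
      rw [hA x1 x2 x5 x3 x4, hB x1 x2 x3 x5 x4, neg_neg]
    have e41235 : t x4 x1 x2 x3 x5 = -t x1 x4 x2 x3 x5 := by
      rw [hA x1 x4 x2 x3 x5]
    have e41532 : t x4 x1 x5 x3 x2 = t x1 x4 x3 x5 x2 := by
      rw [hA x1 x4 x5 x3 x2, hB x1 x4 x3 x5 x2, neg_neg]
    have e51234 : t x5 x1 x2 x3 x4 = -t x1 x5 x2 x3 x4 := by
      rw [hA x1 x5 x2 x3 x4]
    have e51432 : t x5 x1 x4 x3 x2 = t x1 x5 x3 x4 x2 := by
      rw [hA x1 x5 x4 x3 x2, hB x1 x5 x3 x4 x2, neg_neg]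
    have e13524 : t x1 x3 x5 x2 x4 = -t x1 x3 x2 x5 x4 := by
      rw [hB x1 x3 x2 x5 x4]
    have e14523 : t x1 x4 x5 x2 x3 = -t x1 x4 x2 x5 x3 := by
      rw [hB x1 x4 x2 x5 x3]
    have e15423 : t x1 x5 x4 x2 x3 = -t x1 x5 x2 x4 x3 := by
      rw [hB x1 x5 x2 x4 x3]
    have e23145 : t x2 x3 x1 x4 x5 = t x1 x4 x2 x3 x5 := by
      rw [hS x1 x4 x2 x3 x5]
    have e23514 : t x2 x3 x5 x1 x4 = -t x1 x5 x2 x3 x4 := by
      rw [hB x2 x3 x1 x5 x4, hS x1 x5 x2 x3 x4]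
    have e24135 : t x2 x4 x1 x3 x5 = t x1 x3 x2 x4 x5 := by
      rw [hS x1 x3 x2 x4 x5]
    have e24513 : t x2 x4 x5 x1 x3 = -t x1 x5 x2 x4 x3 := by
      rw [hB x2 x4 x1 x5 x3, hS x1 x5 x2 x4 x3]
    have e25134 : t x2 x5 x1 x3 x4 = t x1 x3 x2 x5 x4 := by
      rw [hS x1 x3 x2 x5 x4]
    have e25413 : t x2 x5 x4 x1 x3 = -t x1 x4 x2 x5 x3 := by
      rw [hB x2 x5 x1 x4 x3, hS x1 x4 x2 x5 x3]
    have e34125 : t x3 x4 x1 x2 x5 = t x1 x2 x3 x4 x5 := by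
      rw [hS x1 x2 x3 x4 x5]
    have e34251 : t x3 x4 x2 x5 x1 = t x2 x5 x3 x4 x1 := by
      rw [hS x2 x5 x3 x4 x1]
    have e34512 : t x3 x4 x5 x1 x2 = -t x1 x5 x3 x4 x2 := by
      rw [hB x3 x4 x1 x5 x2, hS x1 x5 x3 x4 x2]
    have e35124 : t x3 x5 x1 x2 x4 = t x1 x2 x3 x5 x4 := by
      rw [hS x1 x2 x3 x5 x4]
    have e35241 : t x3 x5 x2 x4 x1 = t x2 x4 x3 x5 x1 := by
      rw [hS x2 x4 x3 x5 x1]
    have e35412 : t x3 x5 x4 x1 x2 = -t x1 x4 x3 x5 x2 := by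
      rw [hB x3 x5 x1 x4 x2, hS x1 x4 x3 x5 x2]
    have e45123 : t x4 x5 x1 x2 x3 = t x1 x2 x4 x5 x3 := by
      rw [hS x1 x2 x4 x5 x3]
    have e45231 : t x4 x5 x2 x3 x1 = t x2 x3 x4 x5 x1 := by
      rw [hS x2 x3 x4 x5 x1]
    have e45312 : t x4 x5 x3 x1 x2 = -t x1 x3 x4 x5 x2 := by
      rw [hB x4 x5 x1 x3 x2, hS x1 x3 x4 x5 x2]
    have j12 := hJ x1 x2 x3 x4 x5
    have j13 := hJ x1 x3 x2 x4 x5
    have j14 := hJ x1 x4 x2 x3 x5
    have j15 := hJ x1 x5 x2 x3 x4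
    have j23 := hJ x2 x3 x1 x4 x5
    have j24 := hJ x2 x4 x1 x3 x5
    have j25 := hJ x2 x5 x1 x3 x4
    have j34 := hJ x3 x4 x1 x2 x5
    have j35 := hJ x3 x5 x1 x2 x4
    have j45 := hJ x4 x5 x1 x2 x3
    have key : PhiC t x2 x4 x1 x3 x5 - PhiC t x2 x3 x1 x4 x5 - PhiC t x1 x4 x2 x3 x5 +
        PhiC t x1 x3 x2 x4 x5 = (12 : ℤ) • t x1 x2 x3 x4 x5 + (
        (-4 : ℤ) • (t x1 x2 x3 x4 x5 + t x1 x2 x4 x5 x3 + t x1 x2 x5 x3 x4) +
        (1 : ℤ) • (t x1 x3 x2 x4 x5 + t x1 x3 x4 x5 x2 + t x1 x3 x5 x2 x4) +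
        (-1 : ℤ) • (t x1 x4 x2 x3 x5 + t x1 x4 x3 x5 x2 + t x1 x4 x5 x2 x3) +
        (-2 : ℤ) • (t x1 x5 x2 x3 x4 + t x1 x5 x3 x4 x2 + t x1 x5 x4 x2 x3) +
        (-1 : ℤ) • (t x2 x3 x1 x4 x5 + t x2 x3 x4 x5 x1 + t x2 x3 x5 x1 x4) +
        (1 : ℤ) • (t x2 x4 x1 x3 x5 + t x2 x4 x3 x5 x1 + t x2 x4 x5 x1 x3) +
        (2 : ℤ) • (t x2 x5 x1 x3 x4 + t x2 x5 x3 x4 x1 + t x2 x5 x4 x1 x3) +
        (-4 : ℤ) • (t x3 x4 x1 x2 x5 + t x3 x4 x2 x5 x1 + t x3 x4 x5 x1 x2) +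
        (-2 : ℤ) • (t x3 x5 x1 x2 x4 + t x3 x5 x2 x4 x1 + t x3 x5 x4 x1 x2) +
        (2 : ℤ) • (t x4 x5 x1 x2 x3 + t x4 x5 x2 x3 x1 + t x4 x5 x3 x1 x2)) := by
      unfold PhiC
      simp only [e12543, e32145, e32541, e52143, e52341, e12435, e12534, e42135, e42531, e52134, e52431, e21345, e21543, e31245, e31542, e51243, e51342, e21435, e21534, e41235, e41532, e51234, e51432, e13524, e14523, e15423, e23145, e23514, e24135, e24513, e25134, e25413, e34125, e34251, e34512, e35124, e35241, e35412, e45123, e45231, e45312]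
      module
    rw [key, j12, j13, j14, j15, j23, j24, j25, j34, j35, j45]
    simp only [smul_zero, add_zero]

end Pool.Agent.Q154.VG
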